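import Pool.Agent.Lib.BrownShields.Disc

/-!
# The Brown-Shields conjecture fails

There is an outer function `f` in the Dirichlet space, continuous on the closed disc and bounded by
`1`, whose zero set on the circle has outer logarithmic capacity zero, and which is not cyclic.
-/

set_option autoImplicit false

namespace Pool.Agent.Results.MP_d9131c_an.OuterNotCyclic

open Filter MeasureTheory Metric Topology
open scoped ENNReal

/-- `f` belongs to the Dirichlet space and has the Taylor coefficients `c`. -/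
def InDirichlet (f : ℂ → ℂ) (c : ℕ → ℂ) : Prop :=
  (∀ z ∈ ball (0 : ℂ) 1, HasSum (fun k => c k * z ^ k) (f z)) ∧
    Summable fun k : ℕ => ((k : ℝ) + 1) * ‖c k‖ ^ 2

/-- `l` is the radial limit of `f` at the point `ζ` of the circle. -/
def HasRadialLimit (f : ℂ → ℂ) (ζ l : ℂ) : Prop :=
  Tendsto (fun r : ℝ => f ((r : ℂ) * ζ)) (𝓝[<] 1) (𝓝 l)

/-- The set of the points of the circle at which the radial limit of `f` exists and is `0`. -/
def zeroSet (f : ℂ → ℂ) : Set ℂ := {ζ | ζ ∈ sphere (0 : ℂ) 1 ∧ HasRadialLimit f ζ 0}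

/-- `f` is outer: it has no zeros in the disc, radial limits `F θ` at almost all points
`exp (i θ)`, and for every `z` in the disc `log |f z|` is the Poisson integral of `log |F|` (which
is integrable against every Poisson kernel). -/
def IsOuter (f : ℂ → ℂ) : Prop :=
  (∀ z ∈ ball (0 : ℂ) 1, f z ≠ 0) ∧ ∃ F : ℝ → ℂ,
    (∀ᵐ θ : ℝ, HasRadialLimit f (Complex.exp ((θ : ℂ) * Complex.I)) (F θ)) ∧
    IntervalIntegrable (fun θ : ℝ => Real.log ‖F θ‖) volume 0 (2 * Real.pi) ∧
    ∀ z ∈ ball (0 : ℂ) 1,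
      IntervalIntegrable (fun θ : ℝ => (1 - ‖z‖ ^ 2) /
        ‖Complex.exp ((θ : ℂ) * Complex.I) - z‖ ^ 2 * Real.log ‖F θ‖) volume 0 (2 * Real.pi) ∧
      Real.log ‖f z‖ = (1 / (2 * Real.pi)) * ∫ θ in (0 : ℝ)..(2 * Real.pi), (1 - ‖z‖ ^ 2) /
        ‖Complex.exp ((θ : ℂ) * Complex.I) - z‖ ^ 2 * Real.log ‖F θ‖

open Classical in
/-- The energy of a measure for the kernel `log (2 / |z - w|)` (infinite for `z = w`). -/
noncomputable def energy (μ : Measure ℂ) : ℝ≥0∞ :=
  ∫⁻ z, ∫⁻ w, (if z = w then (⊤ : ℝ≥0∞) else ENNReal.ofReal (Real.log (2 / ‖z - w‖))) ∂μ ∂μ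

/-- The logarithmic capacity of a compact subset of the circle: the inverse of the infimum of the
energies of the Borel probability measures carried by the set. -/
noncomputable def cap (V : Set ℂ) : ℝ≥0∞ :=
  (⨅ (μ : Measure ℂ) (_ : IsProbabilityMeasure μ) (_ : μ Vᶜ = 0), energy μ)⁻¹

/-- The inner capacity. -/
noncomputable def innerCap (Γ : Set ℂ) : ℝ≥0∞ := ⨆ (V : Set ℂ) (_ : IsCompact V) (_ : V ⊆ Γ), cap V

/-- The outer capacity of a subset of the circle: the infimum of the inner capacities of the sets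
`U ∩ circle`, `U` open. -/
noncomputable def outerCap (Γ : Set ℂ) : ℝ≥0∞ :=
  ⨅ (U : Set ℂ) (_ : IsOpen U) (_ : Γ ⊆ U), innerCap (U ∩ sphere (0 : ℂ) 1)

/-- The square of the norm of `p f - g` in the Dirichlet space (infinite if `p f - g` is not in the
Dirichlet space), where `p` is a polynomial and `f, g` have the Taylor coefficients `c, d`. -/
noncomputable def sqDist (p : Polynomial ℂ) (c d : ℕ → ℂ) : ℝ≥0∞ :=
  ∑' n : ℕ, ENNReal.ofReal (((n : ℝ) + 1) *
    ‖(∑ k ∈ Finset.range (n + 1), p.coeff k * c (n - k)) - d n‖ ^ 2)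

/-- The function with the Taylor coefficients `c` is cyclic: its polynomial multiples are dense in
the Dirichlet space. -/
def IsCyclic (c : ℕ → ℂ) : Prop :=
  ∀ d : ℕ → ℂ, (Summable fun n : ℕ => ((n : ℝ) + 1) * ‖d n‖ ^ 2) → ∀ ε : ℝ≥0∞, 0 < ε →
    ∃ p : Polynomial ℂ, sqDist p c d < ε

open Pool.Agent.Lib.BrownShields in
/-- **The Brown-Shields conjecture fails**: there is an outer function `f` in the Dirichlet space,
continuous on the closed disc and bounded by `1`, for which the set of the points of the circle with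
radial limit `0` has outer logarithmic capacity zero, and which is not cyclic; more precisely all
polynomial multiples of `f` have distance at least `1 / 2` from the constant function `1`. -/
theorem result : ∃ (f : ℂ → ℂ) (c : ℕ → ℂ), InDirichlet f c ∧ IsOuter f ∧
    outerCap (zeroSet f) = 0 ∧ ¬ IsCyclic c ∧
    ContinuousOn f (closedBall (0 : ℂ) 1) ∧ (∀ z ∈ closedBall (0 : ℂ) 1, ‖f z‖ ≤ 1) ∧
    ∀ p : Polynomial ℂ, 1 / 4 ≤ sqDist p c (fun n => if n = 0 then 1 else 0) := by
  obtain ⟨m, hm⟩ := exists_par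
  have hdist : ∀ p : Polynomial ℂ,
      1 / 4 ≤ sqDist p (coef m) (fun n => if n = 0 then 1 else 0) := by
    intro p
    by_contra hcon
    push Not at hcon
    set t : ℕ → ℝ := fun n => ((n : ℝ) + 1) *
      ‖(∑ k ∈ Finset.range (n + 1), p.coeff k * coef m (n - k)) - (if n = 0 then (1 : ℂ) else 0)‖ ^ 2
      with ht
    have htn : ∀ n, 0 ≤ t n := fun n => by positivity
    have h1 : ∑' n, ENNReal.ofReal (t n) < 1 / 4 := hcon
    have h2 : ∑' n, ENNReal.ofReal (t n) ≠ ⊤ := (h1.trans_le le_top).ne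
    have h3 : Summable t := by
      have h4 : Summable fun n => (ENNReal.ofReal (t n)).toReal := ENNReal.summable_toReal h2
      refine h4.congr fun n => ?_
      rw [ENNReal.toReal_ofReal (htn n)]
    have h4 : ∑' n, t n < 1 / 4 := by
      rw [← ENNReal.ofReal_tsum_of_nonneg htn h3] at h1
      have h5 : (1 / 4 : ℝ≥0∞) = ENNReal.ofReal (1 / 4) := by
        rw [ENNReal.ofReal_div_of_pos (by norm_num)]
        simp
      rw [h5] at h1
      exact (ENNReal.ofReal_lt_ofReal_iff (by norm_num)).1 h1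
    exact final_contra hm p h3 h4
  -- radial limits
  have hrad : ∀ ζ ∈ sphere (0 : ℂ) 1, HasRadialLimit (ff m) ζ (ff m ζ) := by
    intro ζ hζ
    have hζ1 : ‖ζ‖ = 1 := by simpa using hζ
    have h1 : ContinuousWithinAt (ff m) (closedBall 0 1) ζ :=
      disc_continuousOn hm ζ (sphere_subset_closedBall hζ)
    unfold HasRadialLimit
    have h2 : Tendsto (fun r : ℝ => (r : ℂ) * ζ) (𝓝[<] 1) (𝓝[closedBall 0 1] ζ) := by
      refine tendsto_nhdsWithin_iff.2 ⟨?_, ?_⟩
      · have h3 : Continuous fun r : ℝ => (r : ℂ) * ζ := by fun_prop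
        have h4 := h3.tendsto 1
        rw [Complex.ofReal_one, one_mul] at h4
        exact h4.mono_left nhdsWithin_le_nhds
      · have h1 : ∀ᶠ r : ℝ in 𝓝[<] 1, r ∈ Set.Ioo (0 : ℝ) 1 := Ioo_mem_nhdsLT (by norm_num)
        filter_upwards [h1] with r hr
        rw [mem_closedBall_zero_iff, norm_mul, hζ1, mul_one, Complex.norm_real,
          Real.norm_of_nonneg hr.1.le]
        exact hr.2.le
    exact h1.tendsto.comp h2
  have hexp : ∀ θ : ℝ, Complex.exp ((θ : ℂ) * Complex.I) ∈ sphere (0 : ℂ) 1 := fun θ => by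
    rw [mem_sphere_zero_iff_norm]
    exact Complex.norm_exp_ofReal_mul_I θ
  refine ⟨ff m, coef m, ⟨hasSum_coef hm, ?_⟩, ⟨fun z hz => disc_ne_zero hm (by simpa using hz),
    fun θ => ff m (Complex.exp ((θ : ℂ) * Complex.I)),
    Eventually.of_forall fun θ => hrad _ (hexp θ), ?_, ?_⟩, ?_, ?_, disc_continuousOn hm,
    fun z hz => disc_norm_le hm (by simpa using hz), hdist⟩
  · -- in the Dirichlet space
    refine Summable.of_norm_bounded_eventually_nat ((summable_coef hm).mul_left 2) ?_
    filter_upwards [eventually_ge_atTop 1] with n hn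
    rw [Real.norm_of_nonneg (by positivity)]
    have h1 : (1 : ℝ) ≤ n := by exact_mod_cast hn
    nlinarith [sq_nonneg ‖coef m n‖]
  · have hF : ∀ᵐ θ : ℝ, Tendsto (fun k : ℕ => GG m k (Complex.exp ((θ : ℂ) * Complex.I)))
        atTop (𝓝 (ff m (Complex.exp ((θ : ℂ) * Complex.I)))) ∧
        ff m (Complex.exp ((θ : ℂ) * Complex.I)) ≠ 0 := by
      filter_upwards [ae_notin hm] with θ hθ
      obtain ⟨i, hi⟩ := hθ
      have hn : ‖Complex.exp ((θ : ℂ) * Complex.I)‖ ≤ 1 := (Complex.norm_exp_ofReal_mul_I θ).le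
      exact ⟨disc_tendsto hm hn, disc_ne_zero' hm hn hi⟩
    have h1 := (poisson_of hm (z := 0) (by simp) _ hF).1
    simpa using h1
  · intro z hz
    have hF : ∀ᵐ θ : ℝ, Tendsto (fun k : ℕ => GG m k (Complex.exp ((θ : ℂ) * Complex.I)))
        atTop (𝓝 (ff m (Complex.exp ((θ : ℂ) * Complex.I)))) ∧
        ff m (Complex.exp ((θ : ℂ) * Complex.I)) ≠ 0 := by
      filter_upwards [ae_notin hm] with θ hθ
      obtain ⟨i, hi⟩ := hθ
      have hn : ‖Complex.exp ((θ : ℂ) * Complex.I)‖ ≤ 1 := (Complex.norm_exp_ofReal_mul_I θ).le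
      exact ⟨disc_tendsto hm hn, disc_ne_zero' hm hn hi⟩
    exact poisson_of hm (by simpa using hz) _ hF
  · -- capacity
    have key : ∀ M : ℕ, outerCap (zeroSet (ff m)) ≤ (M : ℝ≥0∞)⁻¹ := by
      intro M
      unfold outerCap
      refine iInf_le_of_le (UU m (2 * M)) (iInf_le_of_le (isOpen_UU m _) (iInf_le_of_le ?_ ?_))
      · rintro ζ ⟨hζ, h0⟩
        by_contra hcon
        exact disc_ne_zero' hm (by simpa using (mem_sphere_zero_iff_norm.1 hζ).le) hcon
          (tendsto_nhds_unique (hrad ζ hζ) h0)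
      · unfold innerCap
        refine iSup_le fun V => iSup_le fun hV => iSup_le fun hVU => ?_
        unfold cap
        refine ENNReal.inv_le_inv.2 (le_iInf fun μ => le_iInf fun hμ => le_iInf fun hμV => ?_)
        have h1 := capacity hm (2 * M) V hV hVU μ hμV
        refine le_trans ?_ (le_of_le_of_eq h1 ?_)
        · rw [← ENNReal.ofReal_natCast]
          apply ENNReal.ofReal_le_ofReal
          push_cast
          linarith
        · rfl
    refine le_antisymm (le_of_forall_gt fun ε hε => ?_) zero_le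
    obtain ⟨M, hM⟩ := ENNReal.exists_inv_nat_lt hε.ne'
    exact (key M).trans_lt hM
  · intro hcyc
    obtain ⟨p, hp⟩ := hcyc (fun n => if n = 0 then 1 else 0)
      (summable_of_ne_finset_zero (s := {0}) fun n hn => by
        have : n ≠ 0 := by simpa using hn
        simp [this]) (1 / 4) (by norm_num)
    exact absurd hp (not_lt.2 (hdist p))

end Pool.Agent.Results.MP_d9131c_an.OuterNotCyclic
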